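import Pool.Agent.Helper51.CX.St

set_option autoImplicit false

/-! Project CX (MP_a41ee4_co), module C2Y. -/

namespace Pool.Agent.Helper31.CX

open Pool.Agent.Helper51.CX

variable {K : Type} [Field K] [LinearOrder K] [IsStrictOrderedRing K]

/-- the numeric core: all sign cases -/
private theorem core (fx fy v1 v2 v3 FF z2 z3 z4 d1 d2 d3 d4 p w q e : K)
    (hfx : fx = 50 ∨ fx = -50) (h1 : v1 = 1 ∨ v1 = -1) (h2 : v2 = 1 ∨ v2 = -1)
    (h3 : v3 = 1 ∨ v3 = -1)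
    (hfy : fy = 50 + (v1 + 3 * v2 + 9 * v3) ∨ fy = -50 + (v1 + 3 * v2 + 9 * v3))
    (hFF : FF = fx ^ 2 + fy ^ 2) (hd1 : FF * d1 = fy * p + fx * w)
    (hq : 49 * FF ≤ 100 * q) (hpq : 10 ^ 15 * |q + p| ≤ 1) (hw : 10 ^ 10 * |w| ≤ 1)
    (n2 : 10 ^ 6 * |v1 * z2 - 1| ≤ 1) (n3 : 10 ^ 6 * |v2 * z3 - 1| ≤ 1)
    (n4 : 10 ^ 6 * |v3 * z4 - 1| ≤ 1)
    (m2 : |z2 + d2| ≤ 1 + 1 / 10 ^ 6) (m3 : |z3 + d3| ≤ 1 + 1 / 10 ^ 6)
    (m4 : |z4 + d4| ≤ 1 + 1 / 10 ^ 6) (he : 10 ^ 10 * e ≤ 1)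
    (hY : |d1 - (d2 + 3 * d3 + 9 * d4)| ≤ e) : False := by
  have hpq1 : q + p ≤ 1 / 10 ^ 15 := by
    have := le_abs_self (q + p)
    linarith
  have hpq2 : -(1 / 10 ^ 15) ≤ q + p := by
    have := neg_abs_le (q + p)
    linarith
  have hw1 : w ≤ 1 / 10 ^ 10 := by
    have := le_abs_self w
    linarith
  have hw2 : -(1 / 10 ^ 10) ≤ w := by
    have := neg_abs_le w
    linarith
  have n21 : v1 * z2 - 1 ≤ 1 / 10 ^ 6 := by
    have := le_abs_self (v1 * z2 - 1)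
    linarith
  have n22 : -(1 / 10 ^ 6) ≤ v1 * z2 - 1 := by
    have := neg_abs_le (v1 * z2 - 1)
    linarith
  have n31 : v2 * z3 - 1 ≤ 1 / 10 ^ 6 := by
    have := le_abs_self (v2 * z3 - 1)
    linarith
  have n32 : -(1 / 10 ^ 6) ≤ v2 * z3 - 1 := by
    have := neg_abs_le (v2 * z3 - 1)
    linarith
  have n41 : v3 * z4 - 1 ≤ 1 / 10 ^ 6 := by
    have := le_abs_self (v3 * z4 - 1)
    linarith
  have n42 : -(1 / 10 ^ 6) ≤ v3 * z4 - 1 := by
    have := neg_abs_le (v3 * z4 - 1)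
    linarith
  obtain ⟨m21, m22⟩ := abs_le.1 m2
  obtain ⟨m31, m32⟩ := abs_le.1 m3
  obtain ⟨m41, m42⟩ := abs_le.1 m4
  obtain ⟨y1, y2⟩ := abs_le.1 hY
  have he' : e ≤ 1 / 10 ^ 10 := by linarith
  clear hpq hw n2 n3 n4 m2 m3 m4 hY he
  rcases hfx with rfl | rfl <;> rcases h1 with rfl | rfl <;> rcases h2 with rfl | rfl <;>
    rcases h3 with rfl | rfl <;> rcases hfy with rfl | rfl <;> norm_num at hFF <;> subst hFF <;>
    norm_num at hd1 hq n21 n22 n31 n32 n41 n42 hpq1 hpq2 hw1 hw2 m21 m22 m31 m32 m41 m42 he' <;>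
    linarith

theorem hC2Y (hBDP : StBDP) (hBDD : StBDD) : StC2Y := by
  intro K _ _ _ j h z d hS hfe hLj hLh hpp hMY
  have hz := hBDP K j hS.lo hS.hi z hS.fe hS.tj
  have hLj' : L j (z + d) = 10 ^ 60 := by rw [L_add, hLj, hS.tj, add_zero]
  have hz' := hBDP K j hS.lo hS.hi (z + d) hfe hLj'
  have hd := hBDD K j hS.lo hS.hi d
  obtain ⟨a1, a2, a3, -⟩ := hz
  obtain ⟨b1, b2, b3, -⟩ := hz'
  obtain ⟨c1, c2, c3, -, c5, c6, c7, -, c9⟩ := hd
  have a1' : z 5 ≤ 1 + 1 / 10 ^ 14 := by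
    have := le_abs_self (z 5 - 1)
    linarith
  have b1' : (z + d) 5 ≤ 1 + 1 / 10 ^ 14 := by
    have := le_abs_self ((z + d) 5 - 1)
    linarith
  have hn : nn d ≤ 230 := by
    have h1 : |d 0| ≤ |z 0| + |(z + d) 0| := by
      have h2 : d 0 = (z + d) 0 - z 0 := by rw [Pi.add_apply]; ring
      calc |d 0| = |(z + d) 0 - z 0| := by rw [← h2]
        _ ≤ |(z + d) 0| + |z 0| := abs_sub _ _
        _ = _ := add_comm _ _
    have h3 : |d 1| ≤ |z 1| + |(z + d) 1| := by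
      have h2 : d 1 = (z + d) 1 - z 1 := by rw [Pi.add_apply]; ring
      calc |d 1| = |(z + d) 1 - z 1| := by rw [← h2]
        _ ≤ |(z + d) 1| + |z 1| := abs_sub _ _
        _ = _ := add_comm _ _
    unfold nn at a2 b2 ⊢
    linarith
  have hm : mm d ≤ 7 := by
    have h0 : ∀ i : Fin 6, |d i| ≤ |z i| + |(z + d) i| := by
      intro i
      have h2 : d i = (z + d) i - z i := by rw [Pi.add_apply]; ring
      calc |d i| = |(z + d) i - z i| := by rw [← h2]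
        _ ≤ |(z + d) i| + |z i| := abs_sub _ _
        _ = _ := add_comm _ _
    have h2 := h0 2
    have h3 := h0 3
    have h4 := h0 4
    unfold mm at a3 b3 ⊢
    linarith
  have hww : 10 ^ 10 * |ww j d| ≤ 1 := by
    have h1 : 10 ^ 40 * |ww j d| = |10 ^ 20 * pp j d - el j d| := by
      rcases hS.hh with hh | hh
      · subst hh
        exact c2 hLj hLh
      · subst hh
        exact c3 hLj hLh
    have h2 : |10 ^ 20 * pp j d - el j d| ≤ 10 ^ 20 * |pp j d| + |el j d| := by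
      calc |10 ^ 20 * pp j d - el j d| ≤ |10 ^ 20 * pp j d| + |el j d| := abs_sub _ _
        _ = _ := by rw [abs_mul, abs_of_pos (by positivity : (0 : K) < 10 ^ 20)]
    linarith
  have h5 := c1 hLj
  obtain ⟨T1, T2, T3, T4, T5⟩ := hT0 j hS.hi hS.lo
  have e1 : (fx j : K) = 50 ∨ (fx j : K) = -50 := by
    rcases T1 with h | h
    · left; rw [h]; norm_num
    · right; rw [h]; norm_num
  have e2 : (v1 j : K) = 1 ∨ (v1 j : K) = -1 := by
    rcases T2 with h | h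
    · left; rw [h]; norm_num
    · right; rw [h]; norm_num
  have e3 : (v2 j : K) = 1 ∨ (v2 j : K) = -1 := by
    rcases T3 with h | h
    · left; rw [h]; norm_num
    · right; rw [h]; norm_num
  have e4 : (v3 j : K) = 1 ∨ (v3 j : K) = -1 := by
    rcases T4 with h | h
    · left; rw [h]; norm_num
    · right; rw [h]; norm_num
  have e5 : (fy j : K) = 50 + ((v1 j : K) + 3 * (v2 j : K) + 9 * (v3 j : K)) ∨
      (fy j : K) = -50 + ((v1 j : K) + 3 * (v2 j : K) + 9 * (v3 j : K)) := by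
    rcases T5 with h | h
    · left; rw [h]; push_cast; ring
    · right; rw [h]; push_cast; ring
  have hppd : 10 ^ 15 * |pp j z + pp j d| ≤ 1 := by rw [← pp_add]; exact hpp
  unfold MY at hMY
  refine core (fx j : K) (fy j) (v1 j) (v2 j) (v3 j) (FF K j) (z 2) (z 3) (z 4) (d 1) (d 2) (d 3)
    (d 4) (pp j d) (ww j d) (pp j z) (50 * |d 5|) e1 e2 e3 e4 e5 rfl c9 hS.far hppd hww
    hS.n2 hS.n3 hS.n4 ?_ ?_ ?_ ?_ hMY.le
  · have := hfe.z2
    rw [Pi.add_apply] at this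
    linarith
  · have := hfe.z3
    rw [Pi.add_apply] at this
    linarith
  · have := hfe.z4
    rw [Pi.add_apply] at this
    linarith
  · linarith

end Pool.Agent.Helper31.CX
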